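import Pool.Agent.Lib.JackB.Glue3

/-!
MP_b52a9f_co: all `k` and all `n`, when two of the partitions are hooks or have all parts at most
two and the others are extreme except for a group `B`, which is a single arbitrary partition, or
two partitions of the same kind, or has total rank at most eight.
-/

namespace Pool.Agent.Results.MP_b52a9f_co.HooksInvolutions

open Pool.Agent.JackB

/-- At least `n - 2` parts, or a part at least `n - 1`. -/
def Ext {n : ℕ} (l : n.Partition) : Prop := n ≤ l.parts.card + 2 ∨ ∃ x ∈ l.parts, n ≤ x + 1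

/-- At most one part is different from one, or all parts are at most two. -/
def HookOrInv {n : ℕ} (l : n.Partition) : Prop :=
  (l.parts.filter fun i => i ≠ 1).card ≤ 1 ∨ ∀ i ∈ l.parts, i ≤ 2

theorem result (J : Fam) (hJack : IsJack J) (k : ℕ) (hk : 1 ≤ k) (n : ℕ) (hn : 1 ≤ n)
    (m : Fin (k + 2) → n.Partition) (p q : Fin (k + 2)) (hpq : p ≠ q) (hp : HookOrInv (m p))
    (hq : HookOrInv (m q)) (B : Finset (Fin (k + 2)))
    (hB : B.card ≤ 1 ∨ (B.card ≤ 2 ∧ ∀ a ∈ B, HookOrInv (m a)) ∨
      ∑ a ∈ B, (n - (m a).parts.card) ≤ 8)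
    (hX : ∀ a, a ≠ p → a ≠ q → a ∉ B → Ext (m a)) :
    cJ J k m ∈ Nb ∧ hJ J k m ∈ Nb ∧
    ∀ i : ℕ, ((i : K) * ((m 0).parts.count i : K) / (n : K)) * hJ J k m ∈ Nb := by
  have hA : EndOK m ({p, q} : Finset (Fin (k + 2))) := by
    refine Or.inr (Or.inl ⟨Finset.card_le_two, fun a ha => ?_⟩)
    rw [Finset.mem_insert, Finset.mem_singleton] at ha
    rcases ha with rfl | rfl
    · exact hp
    · exact hq
  refine all_ends hJack hk hn m hA hB fun a ha hb => ?_
  rw [Finset.mem_insert, Finset.mem_singleton, not_or] at ha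
  exact hX a ha.1 ha.2 hb

end Pool.Agent.Results.MP_b52a9f_co.HooksInvolutions
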