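import Pool.Agent.Lib.JackB.IntZ

/-!
MP_b52a9f_co: for every `k` all coefficients `c` and `h` are polynomials in `b` with integer
coefficients.
-/

namespace Pool.Agent.Results.MP_b52a9f_co.Integrality

open Pool.Agent.JackB

/-- Let `J` be the Jack family. All `c` and `h`, for every number `k` of alphabets, are
polynomials in `b` with integer coefficients, and so are the numbers `(i m_i(λ) / n) h`. -/
theorem result (J : Fam) (hJack : IsJack J) (k : ℕ) (hk : 1 ≤ k) (n : ℕ) (hn : 1 ≤ n)
    (m : Fin (k + 2) → n.Partition) :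
    cJ J k m ∈ Zb ∧ hJ J k m ∈ Zb ∧
      ∀ i : ℕ, ((i : K) * ((m 0).parts.count i : K) / (n : K)) * hJ J k m ∈ Zb :=
  integral hJack hk hn m

end Pool.Agent.Results.MP_b52a9f_co.Integrality
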