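import Pool.Agent.Lib.JackB.IntZ

/-!
MP_b52a9f_co: the whole conjecture (for `c` and `h` and all `k`) is reduced to the
non-negativity of `h` for `k = 1`.
-/

namespace Pool.Agent.Results.MP_b52a9f_co.ReductionToOne

open Pool.Agent.JackB

/-- The class version with a subsemiring containing the non-negative rational numbers. -/
theorem nonneg_version (J : Fam) (hJack : IsJack J) (Cl : Set (Multiset ℕ))
    (hCl : ∀ s t, s ≤ t → t ∈ Cl → s ∈ Cl) (S : Subsemiring K) (halS : al ∈ S)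
    (hS : ∀ q : ℚ, 0 ≤ q → (q : K) ∈ S) :
    (∀ n : ℕ, 1 ≤ n → ∀ m : Fin (1 + 2) → n.Partition,
        (∀ a : Fin (1 + 2), 2 ≤ a.val → (m a).parts ∈ Cl) → hJ J 1 m ∈ S) ↔
    (∀ k : ℕ, 1 ≤ k → ∀ n : ℕ, 1 ≤ n → ∀ m : Fin (k + 2) → n.Partition,
        (∀ a : Fin (k + 2), 2 ≤ a.val → (m a).parts ∈ Cl) → cJ J k m ∈ S ∧ hJ J k m ∈ S) := by
  constructor
  · intro h k hk n hn m hm
    have h1 := reduction hJack.orth hJack.unital halS hCl (fun n hn m hm i => by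
      refine S.mul_mem ?_ (h n hn m hm)
      have h2 := hS ((i : ℚ) * ((m 0).parts.count i : ℚ) / (n : ℚ)) (by positivity)
      have h3 : (((i : ℚ) * ((m 0).parts.count i : ℚ) / (n : ℚ) : ℚ) : K)
          = (i : K) * ((m 0).parts.count i : K) / (n : K) := by
        push_cast
        rfl
      rw [← h3]
      exact h2) hk hn m hm
    exact ⟨h1.1, h1.2.1⟩
  · intro h n hn m hm
    exact (h 1 le_rfl n hn m hm).2

theorem result (J : Fam) (hJack : IsJack J) (Cl : Set (Multiset ℕ))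
    (hCl : ∀ s t, s ≤ t → t ∈ Cl → s ∈ Cl) :
    (∀ S : Subsemiring K, al ∈ S →
      (∀ n : ℕ, 1 ≤ n → ∀ m : Fin (1 + 2) → n.Partition,
        (∀ a : Fin (1 + 2), 2 ≤ a.val → (m a).parts ∈ Cl) → ∀ i : ℕ,
          ((i : K) * ((m 0).parts.count i : K) / (n : K)) * hJ J 1 m ∈ S) →
      ∀ k : ℕ, 1 ≤ k → ∀ n : ℕ, 1 ≤ n → ∀ m : Fin (k + 2) → n.Partition,
        (∀ a : Fin (k + 2), 2 ≤ a.val → (m a).parts ∈ Cl) →
          cJ J k m ∈ S ∧ hJ J k m ∈ S ∧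
          ∀ i : ℕ, ((i : K) * ((m 0).parts.count i : K) / (n : K)) * hJ J k m ∈ S) ∧
    (∀ S : Subsemiring K, al ∈ S → (∀ q : ℚ, 0 ≤ q → (q : K) ∈ S) →
      ((∀ n : ℕ, 1 ≤ n → ∀ m : Fin (1 + 2) → n.Partition,
          (∀ a : Fin (1 + 2), 2 ≤ a.val → (m a).parts ∈ Cl) → hJ J 1 m ∈ S) ↔
        (∀ k : ℕ, 1 ≤ k → ∀ n : ℕ, 1 ≤ n → ∀ m : Fin (k + 2) → n.Partition,
          (∀ a : Fin (k + 2), 2 ≤ a.val → (m a).parts ∈ Cl) →
            cJ J k m ∈ S ∧ hJ J k m ∈ S))) ∧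
    ((∀ n : ℕ, 1 ≤ n → ∀ m : Fin (1 + 2) → n.Partition,
        (∀ a : Fin (1 + 2), 2 ≤ a.val → (m a).parts ∈ Cl) → hJ J 1 m ∈ Qb) ↔
      (∀ k : ℕ, 1 ≤ k → ∀ n : ℕ, 1 ≤ n → ∀ m : Fin (k + 2) → n.Partition,
        (∀ a : Fin (k + 2), 2 ≤ a.val → (m a).parts ∈ Cl) →
          cJ J k m ∈ Nb ∧ hJ J k m ∈ Nb)) := by
  refine ⟨?_, ?_, ?_⟩
  · intro S halS h k hk n hn m hm
    exact reduction hJack.orth hJack.unital halS hCl h hk hn m hm
  · intro S halS hS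
    exact nonneg_version J hJack Cl hCl S halS hS
  · have h0 := nonneg_version J hJack Cl hCl Qb al_mem_Qb rat_mem_Qb
    constructor
    · intro h k hk n hn m hm
      have h1 := h0.1 h k hk n hn m hm
      have h2 := integral hJack hk hn m
      exact ⟨mem_Nb h2.1 h1.1, mem_Nb h2.2.1 h1.2⟩
    · intro h
      refine h0.2 fun k hk n hn m hm => ?_
      have h1 := h k hk n hn m hm
      exact ⟨Nb_le_Qb h1.1, Nb_le_Qb h1.2⟩

end Pool.Agent.Results.MP_b52a9f_co.ReductionToOne
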