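import Pool.Agent.Lib.JackB.Glue3

/-!
MP_b52a9f_co: all `k` and all `n`, when the partitions that are not extreme form two groups, each
of them a single arbitrary partition or small: total rank or `n - 1` at most eight.
-/

namespace Pool.Agent.Results.MP_b52a9f_co.SmallRankGroups

open Pool.Agent.JackB

/-- At least `n - 2` parts, or a part at least `n - 1`. -/
def Ext {n : ℕ} (l : n.Partition) : Prop := n ≤ l.parts.card + 2 ∨ ∃ x ∈ l.parts, n ≤ x + 1

/-- A group with at most one member, or of total rank at most eight, or with `n ≤ 9`. -/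
def Group {k n : ℕ} (m : Fin (k + 2) → n.Partition) (A : Finset (Fin (k + 2))) : Prop :=
  A.card ≤ 1 ∨ min (n - 1) (∑ a ∈ A, (n - (m a).parts.card)) ≤ 8

theorem result (J : Fam) (hJack : IsJack J) (k : ℕ) (hk : 1 ≤ k) (n : ℕ) (hn : 1 ≤ n)
    (m : Fin (k + 2) → n.Partition) (A B : Finset (Fin (k + 2)))
    (hA : Group m A) (hB : Group m B) (hX : ∀ a, a ∉ A → a ∉ B → Ext (m a)) :
    cJ J k m ∈ Nb ∧ hJ J k m ∈ Nb ∧
    ∀ i : ℕ, ((i : K) * ((m 0).parts.count i : K) / (n : K)) * hJ J k m ∈ Nb := by
  rcases Nat.lt_or_ge 9 n with h9 | h9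
  · have hE : ∀ C : Finset (Fin (k + 2)), Group m C → EndOK m C := by
      rintro C (h | h)
      · exact Or.inl h
      · rcases min_le_iff.1 h with h1 | h1
        · omega
        · exact Or.inr (Or.inr h1)
    exact all_ends hJack hk hn m (hE A hA) (hE B hB) hX
  · exact all_small hJack hk hn h9 m

end Pool.Agent.Results.MP_b52a9f_co.SmallRankGroups
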